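import Mathlib
import Pool.Agent.R953.Surv5

/-!
# MP_002529_pr: analyticity of the quenched survival function on Galton-Watson trees

Let `μ` be an offspring distribution with exponential moments and mean `m > 1`. Almost surely the
quenched survival function `p ↦ g(T, p)` of Bernoulli bond percolation is analytic on
`[1 / m, 1)`.
-/

set_option autoImplicit false

open MeasureTheory ProbabilityTheory Filter
open scoped ENNReal NNReal Topology

namespace Pool.Agent.Results.MP_002529_pr.QuenchedAnalytic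

open Pool.Agent.R953.GW Pool.Agent.R953.Surv Pool.Agent.R953.Boot

/-- The mean of the offspring distribution `μ`. -/
noncomputable def mean (μ : PMF ℕ) : ℝ := ∑' n : ℕ, (μ n).toReal * (n : ℝ)

/-- The offspring distribution `μ` has exponential moments. -/
def HasExpMoments (μ : PMF ℕ) : Prop :=
  ∃ t : ℝ, 0 < t ∧ Summable fun n : ℕ => (μ n).toReal * Real.exp (t * n)

/-- `f` is analytic on `[a, b)`: it is the restriction to `[a, b)` of a function which is real
analytic on an open interval containing `[a, b)`. -/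
def IsAnalyticOnIco (f : ℝ → ℝ) (a b : ℝ) : Prop :=
  ∃ (F : ℝ → ℝ) (U : Set ℝ), IsOpen U ∧ U.OrdConnected ∧ Set.Ico a b ⊆ U ∧
    AnalyticOnNhd ℝ F U ∧ ∀ x ∈ Set.Ico a b, F x = f x

lemma em_of_exp {μ : PMF ℕ} (h : HasExpMoments μ) : ∃ R, EM μ R := by
  obtain ⟨t, ht, hs⟩ := h
  refine ⟨Real.exp (t / 2), ?_, ?_⟩
  · rw [Real.one_lt_exp_iff]
    positivity
  · refine Summable.of_nonneg_of_le (fun k => by positivity) (fun k => ?_) (hs.mul_left (2 / t))
    have h1 : (k : ℝ) ≤ 2 / t * Real.exp (t / 2) ^ k := by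
      rw [← Real.exp_nat_mul]
      have h2 := Real.add_one_le_exp ((k : ℝ) * (t / 2))
      have h3 : (k : ℝ) * (t / 2) ≤ Real.exp ((k : ℝ) * (t / 2)) := by linarith
      calc (k : ℝ) = 2 / t * ((k : ℝ) * (t / 2)) := by field_simp
        _ ≤ _ := mul_le_mul_of_nonneg_left h3 (by positivity)
    have h2 : Real.exp (t * k) = Real.exp (t / 2) ^ k * Real.exp (t / 2) ^ k := by
      rw [← Real.exp_nat_mul, ← Real.exp_add]
      congr 1
      ring
    rw [h2]
    have h3 : (0 : ℝ) ≤ (μ k).toReal := ENNReal.toReal_nonneg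
    have h4 : (0 : ℝ) ≤ Real.exp (t / 2) ^ k := by positivity
    calc (μ k).toReal * ((k : ℝ) * Real.exp (t / 2) ^ k)
        ≤ (μ k).toReal * ((2 / t * Real.exp (t / 2) ^ k) * Real.exp (t / 2) ^ k) := by gcongr
      _ = 2 / t * ((μ k).toReal * (Real.exp (t / 2) ^ k * Real.exp (t / 2) ^ k)) := by ring

lemma exists_two {μ : PMF ℕ} (h : 1 < mean μ) : ∃ k₀, 2 ≤ k₀ ∧ μ k₀ ≠ 0 := by
  by_contra hcon
  push Not at hcon
  have h1 : mean μ = (μ 1).toReal := by
    unfold mean
    rw [tsum_eq_single 1]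
    · simp
    · intro k hk
      rcases Nat.lt_or_ge k 2 with h2 | h2
      · have : k = 0 := by omega
        rw [this]
        simp
      · rw [hcon k h2]
        simp
  have h2 : (μ 1).toReal ≤ 1 := by
    rw [← ENNReal.toReal_one]
    exact ENNReal.toReal_mono ENNReal.one_ne_top (μ.coe_le_one 1)
  linarith

/-- the real part of a holomorphic function is real analytic on the reals -/
lemma analyticAt_re {G : ℂ → ℂ} {x : ℝ} {c : ℂ} {r : ℝ}
    (hG : DifferentiableOn ℂ G (Metric.ball c r)) (hx : (x : ℂ) ∈ Metric.ball c r) :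
    AnalyticAt ℝ (fun p : ℝ => (G (p : ℂ)).re) x := by
  have h1 : AnalyticAt ℂ G (x : ℂ) := hG.analyticAt (Metric.isOpen_ball.mem_nhds hx)
  have h2 : AnalyticAt ℝ G (x : ℂ) := h1.restrictScalars
  have h3 : AnalyticAt ℝ (fun p : ℝ => (p : ℂ)) x := Complex.ofRealCLM.analyticAt x
  have h4 : AnalyticAt ℝ (fun p : ℝ => G (p : ℂ)) x := AnalyticAt.fun_comp h2 h3
  exact AnalyticAt.fun_comp (Complex.reCLM.analyticAt _) h4

/-- **MP_002529_pr, Q1 (positive answer).** If the offspring distribution has exponential moments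
and mean `m > 1`, then almost surely the quenched survival function is analytic on
`[p_c, 1)`, where `p_c = 1 / m`. -/
theorem result : ∀ μ : PMF ℕ, HasExpMoments μ → 1 < mean μ →
    ∀ᵐ T ∂(gw μ), IsAnalyticOnIco (quenched T) (1 / mean μ) 1 := by
  intro μ hexp hmean
  obtain ⟨R, h⟩ := em_of_exp hexp
  obtain ⟨k₀, hk₀, hμ⟩ := exists_two hmean
  have hpsi : psi μ 1 = mean μ := psi_one
  set pc : ℝ := 1 / mean μ with hpc
  have hm0 : 0 < mean μ := by linarith
  have hpc0 : 0 < pc := by positivity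
  have hpc1 : pc < 1 := by rw [hpc, div_lt_one hm0]; exact hmean
  have hcond : ∀ p : ℝ, 0 < p → (1 / p ≤ psi μ 1 ↔ pc ≤ p) := by
    intro p hp
    rw [hpsi, hpc, div_le_iff₀ hp, div_le_iff₀ hm0, mul_comm]
  have hgood : ∀ x : ℝ, x ∈ Set.Ico pc 1 → ∃ (ρ θ x₁ : ℝ) (a : ℂ → ℂ), Good μ R x ρ θ x₁ a := by
    intro x hx
    have hx0 : 0 < x := hpc0.trans_le hx.1
    exact h.exists_good hk₀ hμ hx0 hx.2 ((hcond x hx0).2 hx.1)
  choose! ρ θ x₁ a hG using hgood
  -- a countable cover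
  obtain ⟨t, ht1, ht2, ht3⟩ : ∃ t ⊆ Set.Ico pc 1, t.Countable ∧
      Set.Ico pc 1 ⊆ ⋃ x ∈ t, Metric.ball x (ρ x / 4) := by
    apply TopologicalSpace.countable_cover_nhdsWithin
    intro x hx
    have := (hG x hx).rho_pos
    exact mem_nhdsWithin_of_mem_nhds (Metric.ball_mem_nhds x (by positivity))
  have hall : ∀ᵐ T ∂(gw μ), ∀ x ∈ insert pc t, ∃ G : ℂ → ℂ,
      DifferentiableOn ℂ G (Metric.ball (x : ℂ) (ρ x / 4)) ∧
      ∀ p : ℝ, |p - x| < ρ x / 4 → 1 / p ≤ psi μ 1 → p < 1 → G p = (quenched T p : ℂ) := by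
    rw [ae_ball_iff (ht2.insert pc)]
    intro x hx
    have hx' : x ∈ Set.Ico pc 1 := by
      rcases Set.mem_insert_iff.1 hx with rfl | hx
      · exact ⟨le_rfl, hpc1⟩
      · exact ht1 hx
    exact (hG x hx').ae_ident h
  filter_upwards [hall] with T hT
  have hmemball : ∀ {x y r : ℝ}, |y - x| < r → (y : ℂ) ∈ Metric.ball (x : ℂ) r := by
    intro x y r hy
    rw [Metric.mem_ball, dist_eq_norm, ← Complex.ofReal_sub, Complex.norm_real,
      Real.norm_eq_abs]
    exact hy
  obtain ⟨G₀, hG₀, hG₀'⟩ := hT pc (Set.mem_insert _ _)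
  have hρc : 0 < ρ pc := (hG pc ⟨le_rfl, hpc1⟩).rho_pos
  set F : ℝ → ℝ := fun p => if p < pc then (G₀ (p : ℂ)).re else quenched T p with hF
  refine ⟨F, Set.Ioo (pc - ρ pc / 4) 1, isOpen_Ioo, Set.ordConnected_Ioo, ?_, ?_, ?_⟩
  · intro x hx
    exact ⟨by linarith [hx.1], hx.2⟩
  · intro x hx
    rcases le_or_gt x pc with hxc | hxc
    · -- around `p_c`
      have hxb : |x - pc| < ρ pc / 4 := by
        rw [abs_lt]
        constructor <;> linarith [hx.1]
      refine (analyticAt_re hG₀ (hmemball hxb)).congr ?_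
      have h1 : ∀ᶠ q : ℝ in 𝓝 x, |q - pc| < ρ pc / 4 := by
        have : ContinuousAt (fun q : ℝ => |q - pc|) x := by fun_prop
        exact this.eventually (gt_mem_nhds hxb)
      have h2 : ∀ᶠ q : ℝ in 𝓝 x, q < 1 := gt_mem_nhds hx.2
      filter_upwards [h1, h2] with q hq1 hq2
      simp only [hF]
      split_ifs with hlt
      · rfl
      · rw [not_lt] at hlt
        have hq0 : 0 < q := hpc0.trans_le hlt
        rw [hG₀' q hq1 ((hcond q hq0).2 hlt) hq2, Complex.ofReal_re]
    · -- above `p_c`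
      obtain ⟨y, hy, hxy⟩ : ∃ y ∈ t, x ∈ Metric.ball y (ρ y / 4) := by
        have := ht3 ⟨hxc.le, hx.2⟩
        simpa using this
      rw [Metric.mem_ball, Real.dist_eq] at hxy
      obtain ⟨G, hG1, hG2⟩ := hT y (Set.mem_insert_of_mem _ hy)
      refine (analyticAt_re hG1 (hmemball hxy)).congr ?_
      have h1 : ∀ᶠ q : ℝ in 𝓝 x, |q - y| < ρ y / 4 := by
        have : ContinuousAt (fun q : ℝ => |q - y|) x := by fun_prop
        exact this.eventually (gt_mem_nhds hxy)
      have h2 : ∀ᶠ q : ℝ in 𝓝 x, q < 1 := gt_mem_nhds hx.2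
      have h3 : ∀ᶠ q : ℝ in 𝓝 x, pc < q := lt_mem_nhds hxc
      filter_upwards [h1, h2, h3] with q hq1 hq2 hq3
      simp only [hF]
      rw [if_neg (not_lt.2 hq3.le)]
      have hq0 : 0 < q := hpc0.trans hq3
      rw [hG2 q hq1 ((hcond q hq0).2 hq3.le) hq2, Complex.ofReal_re]
  · intro x hx
    simp only [hF]
    rw [if_neg (not_lt.2 hx.1)]

end Pool.Agent.Results.MP_002529_pr.QuenchedAnalytic
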